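import Mathlib
import Pool.Agent.R934.UsrIter

/-!
# MP_5a9afa_al: products of elements of unit stable range one

There is a commutative integral domain `R` in which `2` has unit stable range one while
`4 = 2 * 2` does not.  `R` is a subring of `ℝ × ZMod 8` meeting `0 × ZMod 8` trivially and all of
whose units have second coordinate `± 1`.
-/

set_option autoImplicit false

namespace Pool.Agent.Results.MP_5a9afa_al.SquareFails

open Pool.Agent.R934

/-- `a` has unit stable range one: whenever `Ra + Rb = R` there is a unit `r` of `R` such that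
`a + r b` is a unit. -/
def Usr1 {R : Type} [Ring R] (a : R) : Prop :=
  ∀ b : R, (∃ x y : R, x * a + y * b = 1) → ∃ r : Rˣ, IsUnit (a + (r : R) * b)

/-- The other formulation in the problem file: for every `x` there is a unit `u` such that
`(u + x) a - 1` is a unit. -/
def Alt {R : Type} [Ring R] (a : R) : Prop :=
  ∀ x : R, ∃ u : Rˣ, IsUnit (((u : R) + x) * a - 1)

theorem result : ∃ (R : Type) (_ : CommRing R) (_ : IsDomain R) (a b : R),
    (Usr1 a ∧ Usr1 b ∧ ¬ Usr1 (a * b)) ∧ (Alt a ∧ Alt b ∧ ¬ Alt (a * b)) := by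
  obtain ⟨G, hG, hsol⟩ := exists_ring
  have hinj : Function.Injective ((RingHom.fst ℝ (ZMod 8)).comp G.subtype) := by
    rw [injective_iff_map_eq_zero]
    intro g hg
    exact Subtype.ext (hG.q1 g.1 g.2 hg)
  have hdom : IsDomain G := hinj.isDomain _
  have hunit : ∀ g : G, IsUnit g → PM g.1.2 := by
    intro g hg
    obtain ⟨s, hs⟩ := hg.exists_right_inv
    exact hG.q2 g.1 g.2 s.1 s.2 (congrArg Subtype.val hs)
  have h2 : Usr1 (2 : G) := by
    rintro b ⟨x, y, h⟩
    obtain ⟨T, hT, T', hT', W, hW, h1, h2⟩ := hsol b.1 b.2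
      ⟨x.1, x.2, y.1, y.2, congrArg Subtype.val h⟩
    refine ⟨Units.mkOfMulEqOne (⟨T, hT⟩ : G) ⟨T', hT'⟩ (Subtype.ext h1), ?_⟩
    exact IsUnit.of_mul_eq_one ⟨W, hW⟩ (Subtype.ext h2)
  have h2' : Alt (2 : G) := by
    intro x
    obtain ⟨r, hr⟩ := h2 (x * 2 - 1) ⟨x, -1, by ring⟩
    refine ⟨r⁻¹, ?_⟩
    have h3 : (2 : G) + (r : G) * (x * 2 - 1) = (r : G) * (((r⁻¹ : Gˣ) + x) * 2 - 1) := by
      have : (r : G) * ((r⁻¹ : Gˣ) : G) = 1 := r.mul_inv
      calc (2 : G) + (r : G) * (x * 2 - 1) = 1 * 2 + (r : G) * (x * 2 - 1) := by ring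
        _ = (r : G) * ((r⁻¹ : Gˣ) : G) * 2 + (r : G) * (x * 2 - 1) := by rw [this]
        _ = _ := by ring
    rw [h3] at hr
    exact isUnit_of_mul_isUnit_right hr
  refine ⟨G, inferInstance, hdom, 2, 2, ⟨h2, h2, ?_⟩, ⟨h2', h2', ?_⟩⟩
  · intro h
    obtain ⟨r, hr⟩ := h (-1) ⟨0, -1, by ring⟩
    have h1 := hunit _ hr
    have h3 := hunit _ r.isUnit
    have h4 : ((2 * 2 + (r : G) * (-1) : G) : ℝ × ZMod 8).2 = 2 * 2 + (r : G).1.2 * (-1) := rfl
    rw [h4] at h1
    revert h1 h3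
    generalize (r : G).1.2 = z
    unfold PM
    revert z
    decide
  · intro h
    obtain ⟨r, hr⟩ := h 0
    have h1 := hunit _ hr
    have h3 := hunit _ r.isUnit
    have h4 : ((((r : G) + 0) * (2 * 2) - 1 : G) : ℝ × ZMod 8).2
        = ((r : G).1.2 + 0) * (2 * 2) - 1 := rfl
    rw [h4] at h1
    revert h1 h3
    generalize (r : G).1.2 = z
    unfold PM
    revert z
    decide

end Pool.Agent.Results.MP_5a9afa_al.SquareFails
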